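import Mathlib
import Pool.Agent.Helper26.DZMain

/-!
# Coincidence sequences of two normalised univalent functions: the characterisation

A sequence `z` in the unit disc is a coincidence sequence for the class `S` if and only if it is
contained in the zero set of a nonzero function of the Dirichlet space, if and only if the explicit
kernel criterion `KernelCriterion z` holds.
-/

open Complex Metric Set MeasureTheory

namespace Pool.Agent.Results.MP_8199af_an.Characterization

/-- The class `S`: analytic and injective on the unit disc, `f 0 = 0`, `f'(0) = 1`. -/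
def ClassS (f : ℂ → ℂ) : Prop :=
  DifferentiableOn ℂ f (ball 0 1) ∧ InjOn f (ball 0 1) ∧ f 0 = 0 ∧ deriv f 0 = 1

/-- `z` is a coincidence sequence for `S`: two functions of `S` which differ somewhere in the unit
disc agree at all points `z n`. -/
def IsCoincidence (z : ℕ → ℂ) : Prop :=
  ∃ f g : ℂ → ℂ, ClassS f ∧ ClassS g ∧ (∃ w ∈ ball (0 : ℂ) 1, f w ≠ g w) ∧ ∀ n, f (z n) = g (z n)

/-- `z` is contained in the zero set of a function `u` of the Dirichlet space (analytic in the unit
disc with `∫ |u'|² dA < ∞`) which is not identically zero. -/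
def IsDirichletZero (z : ℕ → ℂ) : Prop :=
  ∃ u : ℂ → ℂ, DifferentiableOn ℂ u (ball 0 1) ∧
    IntegrableOn (fun w => ‖deriv u w‖ ^ 2) (ball 0 1) ∧
    (∃ w ∈ ball (0 : ℂ) 1, u w ≠ 0) ∧ ∀ n, u (z n) = 0

/-- `κ(t) = (1/t) log (1/(1-t))`. -/
noncomputable def kap (t : ℂ) : ℂ := -Complex.log (1 - t) / t

/-- `1 - 2 Re ∑ c_n + Re ∑_m ∑_n c_n conj(c_m) κ(conj(z_n) z_m)`, sums over the finite set `s`. -/
noncomputable def quad (z : ℕ → ℂ) (s : Finset ℕ) (c : ℕ → ℂ) : ℝ :=
  1 - 2 * ∑ n ∈ s, (c n).re +
    ∑ m ∈ s, ∑ n ∈ s, (c n * (starRingEnd ℂ) (c m) * kap ((starRingEnd ℂ) (z n) * z m)).re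

/-- The explicit criterion: the quadratic expressions `quad z s c`, for finite sets `s` of indices
with `z n ≠ 0` and complex coefficients `c`, are bounded below by a positive constant. -/
def KernelCriterion (z : ℕ → ℂ) : Prop :=
  ∃ δ : ℝ, 0 < δ ∧ ∀ (s : Finset ℕ) (c : ℕ → ℂ), (∀ n ∈ s, z n ≠ 0) → δ ≤ quad z s c

/-- For every sequence `z` in the unit disc: `z` is a coincidence sequence for `S` if and only if
`z` is contained in the zero set of a nonzero function of the Dirichlet space, if and only if the
explicit kernel criterion holds. -/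
theorem result (z : ℕ → ℂ) (hz : ∀ n, ‖z n‖ < 1) :
    List.TFAE [IsCoincidence z, IsDirichletZero z, KernelCriterion z] :=
  Pool.Agent.Helper26.DZ.main z hz

end Pool.Agent.Results.MP_8199af_an.Characterization
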